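import Pool.Agent.Lib.MP_7b6720_al.INV.Iface

set_option autoImplicit false

/-!
# Basic facts on balls
-/

namespace Pool.Agent.SymDiam

open Equiv

variable {n : ℕ} {A : Set (Perm (Fin n))} {r s : ℕ} {x y z h : Perm (Fin n)}

theorem InBall.mono (hx : InBall A r x) (hrs : r ≤ s) : InBall A s x := by
  obtain ⟨l, h1, h2, h3⟩ := hx
  exact ⟨l, h1.trans hrs, h2, h3⟩

theorem InBall.one : InBall A r (1 : Perm (Fin n)) := ⟨[], by simp, by simp, by simp⟩

theorem InBall.of_mem (hx : x ∈ A) : InBall A 1 x := ⟨[x], by simp, by simp [hx], by simp⟩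

theorem InBall.mul (hx : InBall A r x) (hy : InBall A s y) : InBall A (r + s) (x * y) := by
  obtain ⟨l, h1, h2, h3⟩ := hx
  obtain ⟨m, k1, k2, k3⟩ := hy
  refine ⟨l ++ m, by simp; omega, ?_, by simp [h3, k3]⟩
  intro w hw
  rcases List.mem_append.1 hw with hw | hw
  · exact h2 w hw
  · exact k2 w hw

theorem InBall.inv (hx : InBall A r x) : InBall A r x⁻¹ := by
  obtain ⟨l, h1, h2, h3⟩ := hx
  refine ⟨(l.map (·⁻¹)).reverse, by simpa using h1, ?_, ?_⟩
  · intro w hw
    simp only [List.mem_reverse, List.mem_map] at hw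
    obtain ⟨v, hv, rfl⟩ := hw
    rcases h2 v hv with h | h
    · right; simpa using h
    · left; exact h
  · rw [← h3, List.prod_inv_reverse]

theorem InBall.pow (hx : InBall A r x) (m : ℕ) : InBall A (m * r) (x ^ m) := by
  induction m with
  | zero => simpa using InBall.one
  | succ m ih =>
      rw [pow_succ]
      exact (ih.mul hx).mono (by rw [Nat.succ_mul])

theorem InBall.mem_closure (hx : InBall A r x) : x ∈ Subgroup.closure A := by
  obtain ⟨l, -, h2, rfl⟩ := hx
  refine Subgroup.list_prod_mem _ fun y hy => ?_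
  rcases h2 y hy with h | h
  · exact Subgroup.subset_closure h
  · exact (Subgroup.inv_mem_iff _).1 (Subgroup.subset_closure h)

theorem InBall.cj (hz : InBall A r z) (hh : InBall A s h) :
    InBall A (r + 2 * s) (cj z h) := by
  unfold SymDiam.cj
  exact ((hh.inv.mul hz).mul hh).mono (by omega)

theorem InBall.cm (hz : InBall A r z) (hh : InBall A s h) :
    InBall A (4 * r + 4 * s) (cm z h) := by
  unfold SymDiam.cm
  exact (((hz.mul (hz.cj hh)).mul hz.inv).mul (hz.cj hh).inv).mono (by omega)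

theorem InBall.list_prod {l : List (Perm (Fin n))} (hl : ∀ y ∈ l, InBall A r y) :
    InBall A (l.length * r) l.prod := by
  induction l with
  | nil => simpa using InBall.one
  | cons a l ih =>
      rw [List.prod_cons, List.length_cons]
      refine ((hl a (by simp)).mul (ih fun y hy => hl y (by simp [hy]))).mono ?_
      rw [Nat.succ_mul]; omega

theorem Mixing.mono {k k' : ℕ} {W : Perm (Fin n) → ℝ} (hW : Mixing n k W) (hk : k' ≤ k) :
    Mixing n k' W :=
  ⟨hW.nonneg, hW.sum_eq, fun j hj => hW.upper j (hj.trans hk),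
    fun j hj => hW.lower j (hj.trans hk)⟩

theorem wt_nonneg {k j : ℕ} {W : Perm (Fin n) → ℝ} (hW : Mixing n k W) (e e' : Fin j ↪ Fin n) :
    0 ≤ wt W e e' := by
  unfold wt
  refine Finset.sum_nonneg fun h _ => ?_
  split_ifs
  · exact hW.nonneg h
  · exact le_rfl

/-- averaging: if the `W`-average of `f` over a tuple event is at most `T` then some `h` in the
event with `W h ≠ 0` has `f h ≤ T` -/
theorem exists_le_of_avg {k j : ℕ} {W : Perm (Fin n) → ℝ} (hW : Mixing n k W)
    (e e' : Fin j ↪ Fin n) (hpos : 0 < wt W e e') (f : Perm (Fin n) → ℝ) (T : ℝ)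
    (hf : (∑ h, if Maps e e' h then W h * f h else 0) ≤ wt W e e' * T) :
    ∃ h, W h ≠ 0 ∧ Maps e e' h ∧ f h ≤ T := by
  by_contra hcon
  push Not at hcon
  have hex : ∃ h, W h ≠ 0 ∧ Maps e e' h := by
    by_contra hno
    push Not at hno
    refine absurd hpos (not_lt.2 (le_of_eq ?_))
    unfold wt
    refine Finset.sum_eq_zero fun h _ => ?_
    split_ifs with hm
    · by_contra hne; exact hno h hne hm
    · rfl
  obtain ⟨h0, hh0, hm0⟩ := hex
  refine absurd hf (not_le.2 ?_)
  unfold wt
  rw [Finset.sum_mul]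
  refine Finset.sum_lt_sum (fun h _ => ?_) ⟨h0, Finset.mem_univ _, ?_⟩
  · split_ifs with hm
    · by_cases hz : W h = 0
      · simp [hz]
      · exact mul_le_mul_of_nonneg_left (hcon h hz hm).le (hW.nonneg h)
    · simp
  · rw [if_pos hm0, if_pos hm0]
    exact mul_lt_mul_of_pos_left (hcon h0 hh0 hm0) (lt_of_le_of_ne (hW.nonneg h0) (Ne.symm hh0))

end Pool.Agent.SymDiam
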