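import Mathlib

set_option autoImplicit false

/-!
# Diameter of Cayley graphs of symmetric groups: involutions with many fixed points

Definitions.  See `Paper.md` in this folder.
-/

namespace Pool.Agent.SymDiam

open Equiv

/-- `x` is a product of at most `r` elements of `A` and their inverses. -/
def InBall {n : ℕ} (A : Set (Perm (Fin n))) (r : ℕ) (x : Perm (Fin n)) : Prop :=
  ∃ l : List (Perm (Fin n)), l.length ≤ r ∧ (∀ y ∈ l, y ∈ A ∨ y⁻¹ ∈ A) ∧ l.prod = x

/-- the event that `h` maps the tuple `e` to the tuple `e'` -/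
def Maps {n j : ℕ} (e e' : Fin j ↪ Fin n) (h : Perm (Fin n)) : Prop := ∀ i, h (e i) = e' i

instance {n j : ℕ} (e e' : Fin j ↪ Fin n) (h : Perm (Fin n)) : Decidable (Maps e e' h) := by
  unfold Maps; infer_instance

/-- the weight of the set of `h` which map the tuple `e` to the tuple `e'` -/
noncomputable def wt {n j : ℕ} (W : Perm (Fin n) → ℝ) (e e' : Fin j ↪ Fin n) : ℝ :=
  ∑ h, if Maps e e' h then W h else 0

/-- `W` is a probability weight on `Sym(n)` which is nearly uniform on `j`-tuples for all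
`j ≤ k`. -/
structure Mixing (n k : ℕ) (W : Perm (Fin n) → ℝ) : Prop where
  nonneg : ∀ h, 0 ≤ W h
  sum_eq : ∑ h, W h = 1
  upper : ∀ j, j ≤ k → ∀ e e' : Fin j ↪ Fin n,
    wt W e e' ≤ (1 + 1 / (n : ℝ)) / (n.descFactorial j : ℝ)
  lower : ∀ j, j ≤ k → ∀ e e' : Fin j ↪ Fin n,
    (1 - 1 / (n : ℝ)) / (n.descFactorial j : ℝ) ≤ wt W e e'

/-- the alternating walk `x, b x, g b x, b g b x, ...` -/
def walk {n : ℕ} (g b : Perm (Fin n)) (x : Fin n) : ℕ → Fin n
  | 0 => x
  | j + 1 => if j % 2 = 0 then b (walk g b x j) else g (walk g b x j)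

/-- the first `m` points of the alternating walk from `x` are distinct -/
def Dist {n : ℕ} (g b : Perm (Fin n)) (m : ℕ) (x : Fin n) : Prop :=
  ∀ i < m, ∀ j < m, walk g b x i = walk g b x j → i = j

instance {n : ℕ} (g b : Perm (Fin n)) (m : ℕ) (x : Fin n) : Decidable (Dist g b m x) := by
  unfold Dist; infer_instance

/-- the conjugate of `g` by `h` -/
def cj {n : ℕ} (g h : Perm (Fin n)) : Perm (Fin n) := h⁻¹ * g * h

/-- the commutator of `z` and its conjugate by `h` -/
def cm {n : ℕ} (z h : Perm (Fin n)) : Perm (Fin n) := z * cj z h * z⁻¹ * (cj z h)⁻¹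

end Pool.Agent.SymDiam
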