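import Pool.Agent.Lib.MP_7b6720_al.INV.Defs

set_option autoImplicit false

/-!
# Interface: exact statements of the modules

Proof hints are in `Paper.md`.
-/

namespace Pool.Agent.SymDiam

open Equiv Finset

/-- TRIV: the trivial bound for the diameter. -/
def TrivS : Prop := ∀ (n : ℕ) (A : Set (Perm (Fin n))) (g : Perm (Fin n)),
  g ∈ Subgroup.closure A → InBall A n.factorial g

/-- GENS: a small generating subset (chain of subgroups, each of index at least two). -/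
def GensS : Prop := ∀ (n : ℕ) (A : Set (Perm (Fin n))), ∃ B : Finset (Perm (Fin n)),
  (∀ b ∈ B, b ∈ A) ∧ Subgroup.closure (B : Set (Perm (Fin n))) = Subgroup.closure A ∧
    B.card ≤ n ^ 2

/-- POIN: a Poincare inequality for a transitive action. -/
def PoinS : Prop := ∀ (G : Type) [Group G] (S : Finset G), (∀ s ∈ S, s⁻¹ ∈ S) →
  ∀ (V : Type) [Fintype V] [DecidableEq V] [MulAction G V],
    (∀ v w : V, ∃ g ∈ Subgroup.closure (S : Set G), g • v = w) →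
    ∀ f : V → ℝ, ∑ v, f v = 0 →
      2 * ∑ v, f v ^ 2 ≤ (Fintype.card V : ℝ) ^ 3 * ∑ s ∈ S, ∑ v, (f v - f (s • v)) ^ 2

/-- GAP: the lazy averaging operator contracts functions of mean zero. -/
def GapS : Prop := ∀ (G : Type) [Group G] (S : Finset G), 1 ≤ S.card → (∀ s ∈ S, s⁻¹ ∈ S) →
  ∀ (V : Type) [Fintype V] [DecidableEq V] [MulAction G V],
    (∀ v w : V, ∃ g ∈ Subgroup.closure (S : Set G), g • v = w) →
    ∀ f : V → ℝ, ∑ v, f v = 0 →
      ∑ v, (1 / 2 * f v + 1 / (2 * (S.card : ℝ)) * ∑ s ∈ S, f (s • v)) ^ 2 ≤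
        (1 - 1 / (2 * (S.card : ℝ) * (Fintype.card V : ℝ) ^ 3)) * ∑ v, f v ^ 2

/-- WALK: the lazy random walk of length `t`. -/
def WalkS : Prop := ∀ (G : Type) [Group G] [Fintype G] [DecidableEq G] (S : Finset G),
  1 ≤ S.card → (∀ s ∈ S, s⁻¹ ∈ S) → ∀ t : ℕ, ∃ W : G → ℝ,
    (∀ g, 0 ≤ W g) ∧ ∑ g, W g = 1 ∧
    (∀ g, W g ≠ 0 → ∃ l : List G, l.length ≤ t ∧ (∀ y ∈ l, y ∈ S) ∧ l.prod = g) ∧
    ∀ (V : Type) [Fintype V] [DecidableEq V] [MulAction G V],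
      (∀ v w : V, ∃ g ∈ Subgroup.closure (S : Set G), g • v = w) →
      ∀ v w : V, (∑ g, (if g • v = w then W g else 0) - 1 / (Fintype.card V : ℝ)) ^ 2 ≤
        (1 - 1 / (2 * (S.card : ℝ) * (Fintype.card V : ℝ) ^ 3)) ^ t

/-- TRANS: multiple transitivity. -/
def TransS : Prop := ∀ (n k : ℕ), k + 2 ≤ n → ∀ A : Set (Perm (Fin n)),
  alternatingGroup (Fin n) ≤ Subgroup.closure A →
    ∀ e e' : Fin k ↪ Fin n, ∃ g ∈ Subgroup.closure A, Maps e e' g

/-- MIX: short words which are nearly uniform on `k`-tuples. -/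
def MixS : Prop := ∀ k : ℕ, ∃ c n0 : ℕ, ∀ n ≥ n0, ∀ A : Set (Perm (Fin n)),
  alternatingGroup (Fin n) ≤ Subgroup.closure A →
    ∃ W : Perm (Fin n) → ℝ, Mixing n k W ∧ ∀ h, W h ≠ 0 → InBall A (n ^ c) h

/-- SUPP: the support of a commutator. -/
def SuppS : Prop := ∀ (n : ℕ) (u v : Perm (Fin n)),
  (u * v * u⁻¹ * v⁻¹).support.card ≤ 3 * (u.support ∩ v.support).card ∧
    ((u.support ∩ v.support).card = 1 → (u * v * u⁻¹ * v⁻¹).IsThreeCycle)

/-- CON: one contraction step. -/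
def ConS : Prop := ∀ n ≥ 100, ∀ W : Perm (Fin n) → ℝ, Mixing n 3 W → ∀ z : Perm (Fin n),
  z ≠ 1 → z.support.card < n → ∃ h, W h ≠ 0 ∧ cm z h ≠ 1 ∧
    ((cm z h).support.card : ℝ) ≤ 6 + 4 * (z.support.card : ℝ) ^ 2 / (n : ℝ)

/-- THREE: from small support to a three-cycle. -/
def ThreeS : Prop := ∀ n ≥ 100, ∀ W : Perm (Fin n) → ℝ, Mixing n 3 W → ∀ z : Perm (Fin n),
  z ≠ 1 → 4 * z.support.card ^ 2 ≤ n → ∃ h, W h ≠ 0 ∧ (cm z h).IsThreeCycle

/-- ITER: iterated contraction. -/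
def IterS : Prop := ∀ n ≥ 90000, ∀ (A : Set (Perm (Fin n))) (R : ℕ) (W : Perm (Fin n) → ℝ),
  Mixing n 3 W → (∀ h, W h ≠ 0 → InBall A R h) → ∀ (z : Perm (Fin n)) (l : ℕ),
    z ≠ 1 → InBall A l z → 100 * z.support.card ≤ n →
      ∃ z' : Perm (Fin n), z' ≠ 1 ∧ 4 * z'.support.card ^ 2 ≤ n ∧
        InBall A (z.support.card * (l + 2 * R)) z'

/-- EVEN: an even permutation is a product of at most `n` three-cycles. -/
def EvenS : Prop := ∀ (n : ℕ) (g : Perm (Fin n)), g ∈ alternatingGroup (Fin n) →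
  ∃ l : List (Perm (Fin n)), l.length ≤ n ∧ (∀ y ∈ l, y.IsThreeCycle) ∧ l.prod = g

/-- FIN: from one short three-cycle to the whole group. -/
def FinS : Prop := ∀ (n : ℕ) (A : Set (Perm (Fin n))) (l R : ℕ) (c : Perm (Fin n)),
  alternatingGroup (Fin n) ≤ Subgroup.closure A → c.IsThreeCycle → InBall A l c →
    (∀ e e' : Fin 3 ↪ Fin n, ∃ h, InBall A R h ∧ Maps e e' h) →
      ∀ g ∈ Subgroup.closure A, InBall A (n * (l + 2 * R) + 1) g

/-- DIH: the dihedral group generated by two involutions. -/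
def DihS : Prop := ∀ (n : ℕ) (g b : Perm (Fin n)), g * g = 1 → b * b = 1 →
  ∀ (K : ℕ) (x : Fin n), 1 ≤ K → ¬ Dist g b (2 * K) x → ¬ Dist g b (2 * K) (g x) →
    ((g * b) ^ (4 * K).factorial) x = x

/-- EVW: even points of the walk. -/
def EvwS : Prop := ∀ (n : ℕ) (g b : Perm (Fin n)) (m : ℕ) (x : Fin n),
  walk g b x (2 * m) = ((g * b) ^ m) x ∧ walk g b x (2 * m + 1) = b (((g * b) ^ m) x)

/-- COUNT: the first moment bound for long alternating walks. -/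
def CountS : Prop := ∀ (n k' K : ℕ) (W : Perm (Fin n) → ℝ), 1 ≤ K → Mixing n (k' + 2 * K) W →
  ∀ g : Perm (Fin n), g * g = 1 → ∀ e e' : Fin k' ↪ Fin n,
    (∑ h, if Maps e e' h then
        W h * ((univ.filter fun x => Dist g (cj g h) (2 * K) x).card : ℝ) else 0) ≤
      wt W e e' * (2 * (K : ℝ) * (k' : ℝ)) +
        (n : ℝ) ^ 2 * (g.support.card : ℝ) ^ (2 * K - 1) *
          ((1 + 1 / (n : ℝ)) / (n.descFactorial (k' + 2 * K) : ℝ))

/-- FORCE: a tuple condition which forces a long alternating walk. -/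
def ForceS : Prop := ∀ (n L : ℕ) (g : Perm (Fin n)), g * g = 1 →
  2 * (L + 1) ≤ g.support.card →
    ∃ (e e' : Fin (2 * L) ↪ Fin n) (x : Fin n), ∀ h, Maps e e' h → Dist g (cj g h) (2 * L) x

/-- SMALL: from an involution with many fixed points to a short word of small support. -/
def SmallS : Prop := ∀ ε : ℝ, 0 < ε → ∃ k n0 M : ℕ, ∀ n ≥ n0, ∀ W : Perm (Fin n) → ℝ,
  Mixing n k W → ∀ g : Perm (Fin n), g * g = 1 →
    ε * (n : ℝ) ≤ ((univ.filter fun x => g x = x).card : ℝ) → n < 100 * g.support.card →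
      ∃ h, W h ≠ 0 ∧ (g * cj g h) ^ M ≠ 1 ∧ 100 * ((g * cj g h) ^ M).support.card ≤ n

/-- MAIN. -/
def MainS : Prop := ∀ ε : ℝ, 0 < ε → ∀ c : ℕ, ∃ C : ℕ, ∀ (n : ℕ) (A : Set (Perm (Fin n))),
  alternatingGroup (Fin n) ≤ Subgroup.closure A →
    ∀ t : Perm (Fin n), InBall A (n ^ c) t → t ≠ 1 → t * t = 1 →
      ε * (n : ℝ) ≤ ((univ.filter fun x => t x = x).card : ℝ) →
        ∀ g ∈ Subgroup.closure A, InBall A (n ^ C) g

end Pool.Agent.SymDiam
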